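import Pool.Agent.H929.KC.Stm2
import Pool.Graph.R_seed8.W602.GT.Der

/-!
# Project KC: the exchange inequality (helper216)
-/

set_option autoImplicit false

namespace Pool.Agent.H929.KC

namespace EXaux

open MvPolynomial

/-- algebraicity over a transcendence basis is preserved by maps -/
theorem alg_push {k F L : Type} [Field k] [Field F] [Field L] [Algebra k F] [Algebra k L]
    {n m : ℕ} (x : Fin n → F) (hx : IsTranscendenceBasis k x) (ι : F →ₐ[k] L) (v : Fin m → L)
    (hv : ∀ i, ι (x i) ∈ Set.range v) (f : F) :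
    IsAlgebraic (IntermediateField.adjoin k (Set.range v)) (ι f) := by
  have h1 : Algebra.IsAlgebraic (IntermediateField.adjoin k (Set.range x)) F :=
    hx.isAlgebraic_field
  have h2 := h1.isAlgebraic f
  have hle : (IntermediateField.adjoin k (Set.range x)).map ι ≤
      IntermediateField.adjoin k (Set.range v) := by
    rw [IntermediateField.adjoin_map]
    refine IntermediateField.adjoin.mono k _ _ ?_
    rintro _ ⟨_, ⟨i, rfl⟩, rfl⟩
    exact hv i
  have hmem : ∀ y : IntermediateField.adjoin k (Set.range x),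
      ι y ∈ IntermediateField.adjoin k (Set.range v) := fun y =>
    hle ⟨y, y.2, rfl⟩
  let f0 : IntermediateField.adjoin k (Set.range x) →+*
      IntermediateField.adjoin k (Set.range v) :=
    (ι.toRingHom.comp (algebraMap (IntermediateField.adjoin k (Set.range x)) F)).codRestrict
      (IntermediateField.adjoin k (Set.range v)).toSubfield (fun y => hmem y)
  exact h2.ringHom_of_comp_eq f0 ι.toRingHom f0.injective (by ext y; rfl)

/-- the pair is independent -/
theorem ip_core {k F L : Type} [Field k] [CharZero k] [Field F] [Field L]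
    [Algebra k F] [Algebra k L] (hTR : S_TR) {G : MvPolynomial (Fin 4) k} {d : ℕ} {P : Six F}
    (hyp : Hyp G d P) (ι θ : F →ₐ[k] L)
    (h : letI : Algebra F L := ι.toRingHom.toAlgebra; AlgebraicIndependent F ![θ P.p, θ P.q]) :
    IP k (P.map ι) (P.map θ) := by
  let _ : Algebra F L := ι.toRingHom.toAlgebra
  have : IsScalarTower k F L := IsScalarTower.of_algebraMap_eq' (by
    ext c; exact (ι.commutes c).symm)
  have h1 : AlgebraicIndependent k (Sum.elim ![θ P.p, θ P.q] (algebraMap F L ∘ ![P.p, P.q])) :=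
    AlgebraicIndependent.sumElim_comp hyp.gp.dual.1 h
  have h2 : AlgebraicIndependent k ![ι P.p, ι P.q, θ P.p, θ P.q] := by
    have h3 := h1.comp (![Sum.inr 0, Sum.inr 1, Sum.inl 0, Sum.inl 1] : Fin 4 → Fin 2 ⊕ Fin 2)
      (by decide)
    convert h3 using 1
    funext i
    fin_cases i <;> rfl
  refine hTR k L 4 _ _ h2 ?_
  have hvι : ∀ i, ι ((![P.x, P.y] : Fin 2 → F) i) ∈
      Set.range ![(P.map ι).x, (P.map ι).y, (P.map θ).x, (P.map θ).y] := by
    intro i
    fin_cases i
    · exact ⟨0, rfl⟩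
    · exact ⟨1, rfl⟩
  have hvθ : ∀ i, θ ((![P.x, P.y] : Fin 2 → F) i) ∈
      Set.range ![(P.map ι).x, (P.map ι).y, (P.map θ).x, (P.map θ).y] := by
    intro i
    fin_cases i
    · exact ⟨2, rfl⟩
    · exact ⟨3, rfl⟩
  intro i
  fin_cases i
  · exact alg_push _ hyp.gp.bas ι _ hvι P.p
  · exact alg_push _ hyp.gp.bas ι _ hvι P.q
  · exact alg_push _ hyp.gp.bas θ _ hvθ P.p
  · exact alg_push _ hyp.gp.bas θ _ hvθ P.q

theorem big_aux {F K Ω : Type} [Field F] [Field K] [Field Ω]
    [Algebra (MvPolynomial (Fin 2) F) K] [IsFractionRing (MvPolynomial (Fin 2) F) K]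
    [Algebra K Ω] [Algebra F Ω]
    (h : ∀ c : F, algebraMap F Ω c = algebraMap K Ω (algebraMap (MvPolynomial (Fin 2) F) K (C c))) :
    AlgebraicIndependent F
      (fun i : Fin 2 => algebraMap K Ω (algebraMap (MvPolynomial (Fin 2) F) K (X i))) := by
  have h1 : Function.Injective ((algebraMap K Ω).comp (algebraMap (MvPolynomial (Fin 2) F) K)) :=
    (algebraMap K Ω).injective.comp (IsFractionRing.injective (MvPolynomial (Fin 2) F) K)
  rw [algebraicIndependent_iff_injective_aeval]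
  have h2 : ((aeval (fun i : Fin 2 => algebraMap K Ω
      (algebraMap (MvPolynomial (Fin 2) F) K (X i))) : MvPolynomial (Fin 2) F →ₐ[F] Ω) :
      MvPolynomial (Fin 2) F →+* Ω) =
      (algebraMap K Ω).comp (algebraMap (MvPolynomial (Fin 2) F) K) := by
    refine MvPolynomial.ringHom_ext (fun r => ?_) fun i => ?_
    · rw [RingHom.coe_coe, aeval_C, h]
      rfl
    · rw [RingHom.coe_coe, aeval_X]
      rfl
  intro a b hab
  apply h1
  rw [← h2]
  exact hab

/-- a big algebraically closed field -/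
theorem exists_big (F : Type) [Field F] : ∃ (Ω : Type) (_ : Field Ω) (_ : Algebra F Ω)
    (γ : Fin 2 → Ω), IsAlgClosed Ω ∧ AlgebraicIndependent F γ := by
  obtain ⟨K, iK, iA, iF⟩ : ∃ (K : Type) (_ : Field K) (_ : Algebra (MvPolynomial (Fin 2) F) K),
      IsFractionRing (MvPolynomial (Fin 2) F) K :=
    ⟨FractionRing (MvPolynomial (Fin 2) F), inferInstance, inferInstance, inferInstance⟩
  obtain ⟨Ω, iΩ, iB, hc⟩ : ∃ (Ω : Type) (_ : Field Ω) (_ : Algebra K Ω), IsAlgClosed Ω :=
    ⟨AlgebraicClosure K, inferInstance, inferInstance, inferInstance⟩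
  let iC : Algebra F Ω :=
    ((algebraMap K Ω).comp ((algebraMap (MvPolynomial (Fin 2) F) K).comp C)).toAlgebra
  exact ⟨Ω, iΩ, iC, _, hc, big_aux (K := K) fun c => rfl⟩

/-- a derivation with prescribed values -/
theorem exists_der2 {k K : Type} [Field k] [CharZero k] [Field K] [Algebra k K] {z : Fin 2 → K}
    (hz : AlgebraicIndependent k z) (c : Fin 2 → K) :
    ∃ D : Derivation k K K, ∀ i, D (z i) = c i := by
  classical
  obtain ⟨s, hs, hs2⟩ := exists_isTranscendenceBasis_superset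
    ((algebraicIndependent_subtype_range hz.injective).2 hz)
  obtain ⟨D, hD⟩ := Pool.Agent.W602.GT.exists_der (L := k) (K := K)
    ((↑) : s → K) hs2 (fun j => if (j : K) = z 0 then c 0 else c 1)
  refine ⟨D, fun i => ?_⟩
  have hne : z 1 ≠ z 0 := fun h => absurd (hz.injective h) (by decide)
  have h0 := hD ⟨z i, hs ⟨i, rfl⟩⟩
  fin_cases i
  · simpa using h0
  · simpa [hne] using h0

theorem res_map {R S : Type} [CommRing R] [CommRing S] (ψ : R →+* S) (A : MvPolynomial (Fin 3) R)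
    (a b : R) : (res A a b).map ψ = res (A.map ψ) (ψ a) (ψ b) := by
  have h : ((Polynomial.mapRingHom ψ).comp ((aeval ![1, Polynomial.X,
      Polynomial.C a + Polynomial.C b * Polynomial.X] :
        MvPolynomial (Fin 3) R →ₐ[R] Polynomial R) : MvPolynomial (Fin 3) R →+* Polynomial R)) =
      ((aeval ![1, Polynomial.X, Polynomial.C (ψ a) + Polynomial.C (ψ b) * Polynomial.X] :
        MvPolynomial (Fin 3) S →ₐ[S] Polynomial S) :
          MvPolynomial (Fin 3) S →+* Polynomial S).comp (MvPolynomial.map ψ) := by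
    refine MvPolynomial.ringHom_ext (fun r => ?_) fun i => ?_
    · simp [Polynomial.algebraMap_eq]
    · fin_cases i <;> simp
  exact DFunLike.congr_fun h A

theorem res_mul {R : Type} [CommRing R] (A B : MvPolynomial (Fin 3) R)
    (a b : R) : res (A * B) a b = res A a b * res B a b := by
  simp [res]

theorem natDegree_res_le {R : Type} [CommRing R] (A : MvPolynomial (Fin 3) R) (a b : R) :
    (res A a b).natDegree ≤ A.totalDegree := by
  unfold res
  rw [aeval_def, eval₂_eq']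
  refine Polynomial.natDegree_sum_le_of_forall_le _ _ fun m hm => ?_
  refine (Polynomial.natDegree_mul_le).trans ?_
  rw [Polynomial.algebraMap_eq, Polynomial.natDegree_C, zero_add]
  refine (Polynomial.natDegree_prod_le _ _).trans ?_
  have h1 : ∀ i : Fin 3, (((![1, Polynomial.X, Polynomial.C a + Polynomial.C b * Polynomial.X] :
      Fin 3 → Polynomial R) i) ^ (m i)).natDegree ≤ m i := by
    intro i
    refine (Polynomial.natDegree_pow_le).trans ?_
    have : ((![1, Polynomial.X, Polynomial.C a + Polynomial.C b * Polynomial.X] :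
      Fin 3 → Polynomial R) i).natDegree ≤ 1 := by
      fin_cases i
      · simp
      · exact Polynomial.natDegree_X_le
      · refine (Polynomial.natDegree_add_le _ _).trans (max_le (by simp) ?_)
        exact (Polynomial.natDegree_C_mul_le _ _).trans Polynomial.natDegree_X_le
    calc m i * _ ≤ m i * 1 := Nat.mul_le_mul_left _ this
      _ = m i := mul_one _
  refine (Finset.sum_le_sum fun i _ => h1 i).trans ?_
  have h2 := MvPolynomial.le_totalDegree hm
  rwa [Finsupp.sum_fintype _ _ (fun _ => rfl)] at h2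

theorem relPrime {k F : Type} [Field k] [CharZero k] [Field F] [Algebra k F]
    (hX0 : S_X0) (hGLI : S_GLI) {G : MvPolynomial (Fin 4) k} {d : ℕ} {P : Six F}
    (hyp : Hyp G d P) {L : Type} [Field L] [Algebra k L] (ι θ : F →ₐ[k] L)
    (hIP : IP k (P.map ι) (P.map θ)) {A B : MvPolynomial (Fin 3) F}
    (hAB : A * B = Gz G P.p P.q P.r) : IsRelPrime A B := by
  intro Q hQA hQB
  obtain ⟨A1, rfl⟩ := hQA
  obtain ⟨B1, rfl⟩ := hQB
  obtain ⟨-, h0, hhom⟩ := hX0 k F G d P hyp
  obtain ⟨h1, -, g, hg1, hg2, hg3⟩ := hGLI k F G d P hyp L ι θ hIP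
  have hne : Q * A1 * (Q * B1) ≠ 0 := by rw [hAB]; exact h0
  have hQ0 : Q ≠ 0 := fun h => hne (by simp [h])
  have hA0 : A1 ≠ 0 := fun h => hne (by simp [h])
  have hB0 : B1 ≠ 0 := fun h => hne (by simp [h])
  have htot : (Q * A1 * (Q * B1)).totalDegree = d := by
    rw [hAB]; exact hhom.totalDegree h0
  rw [totalDegree_mul_of_isDomain (mul_ne_zero hQ0 hA0) (mul_ne_zero hQ0 hB0),
    totalDegree_mul_of_isDomain hQ0 hA0, totalDegree_mul_of_isDomain hQ0 hB0] at htot
  have hmap : ∀ X : MvPolynomial (Fin 3) F, (X.map (ι : F →+* L)).totalDegree ≤ X.totalDegree :=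
    fun X => Finset.sup_mono (support_map_subset _ _)
  rw [← hAB, map_mul, map_mul, map_mul, res_mul, res_mul, res_mul, ← hg1] at h1
  have hdeg := congrArg Polynomial.natDegree h1
  have hgne : g.map (algebraMap _ L) ≠ 0 :=
    Polynomial.map_ne_zero hg2.ne_zero
  rw [Polynomial.natDegree_map, hg3] at hdeg
  rw [← h1] at hgne
  have e1 := (left_ne_zero_of_mul hgne)
  have e2 := (right_ne_zero_of_mul hgne)
  rw [Polynomial.natDegree_mul e1 e2,
    Polynomial.natDegree_mul (left_ne_zero_of_mul e1) (right_ne_zero_of_mul e1),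
    Polynomial.natDegree_mul (left_ne_zero_of_mul e2) (right_ne_zero_of_mul e2)] at hdeg
  have b1 := natDegree_res_le (Q.map (ι : F →+* L)) ((P.map ι).a (P.map θ)) ((P.map ι).b (P.map θ))
  have b2 := natDegree_res_le (A1.map (ι : F →+* L)) ((P.map ι).a (P.map θ)) ((P.map ι).b (P.map θ))
  have b3 := natDegree_res_le (B1.map (ι : F →+* L)) ((P.map ι).a (P.map θ)) ((P.map ι).b (P.map θ))
  have c1 := b1.trans (hmap Q)
  have c2 := b2.trans (hmap A1)
  have c3 := b3.trans (hmap B1)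
  have hsq : Squarefree (g.map (algebraMap _ L)) := (hg2.separable.map).squarefree
  have hu : IsUnit (res (Q.map (ι : F →+* L)) ((P.map ι).a (P.map θ)) ((P.map ι).b (P.map θ))) := by
    apply hsq
    rw [← h1]
    exact ⟨res (A1.map (ι : F →+* L)) ((P.map ι).a (P.map θ)) ((P.map ι).b (P.map θ)) *
      res (B1.map (ι : F →+* L)) ((P.map ι).a (P.map θ)) ((P.map ι).b (P.map θ)), by ring⟩
  have hn := Polynomial.natDegree_eq_zero_of_isUnit hu
  have ht : Q.totalDegree = 0 := by omega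
  rw [totalDegree_eq_zero_iff_eq_C] at ht
  rw [ht] at hQ0 ⊢
  exact (IsUnit.mk0 _ (fun h => hQ0 (by rw [h, C_0]))).map C

theorem trans_of_ai {F Ω : Type} [Field F] [IsAlgClosed F] [Field Ω] [Algebra F Ω] {γ : Fin 2 → Ω}
    (hγ : AlgebraicIndependent F γ) : γ 1 ≠ 0 ∧ Transcendental F (-γ 0 / γ 1) := by
  have h1 : γ 1 ≠ 0 := by
    intro h
    have := hγ.transcendental 1
    rw [h] at this
    exact this isAlgebraic_zero
  refine ⟨h1, fun halg => ?_⟩
  obtain ⟨c, hc⟩ : ∃ c : F, algebraMap F Ω c = -γ 0 / γ 1 :=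
    minpoly.mem_range_of_degree_eq_one F _
      (IsAlgClosed.degree_eq_one_of_irreducible F (minpoly.irreducible halg.isIntegral))
  have h2 : aeval γ (X 0 + C c * X 1 : MvPolynomial (Fin 2) F) = 0 := by
    rw [map_add, map_mul, aeval_C, aeval_X, aeval_X, hc]
    field_simp
    ring
  have h3 := hγ.eq_zero_of_aeval_eq_zero _ h2
  have h4 := congrArg (eval (![1, 0] : Fin 2 → F)) h3
  simp at h4

/-- expansion of a series with given constant term -/
theorem split {Ω : Type} [Field Ω] (u : PowerSeries Ω) :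
    ∃ v : PowerSeries Ω, u - PowerSeries.C (PowerSeries.constantCoeff u) = PowerSeries.X * v ∧
      PowerSeries.constantCoeff v = PowerSeries.coeff 1 u := by
  have h : PowerSeries.X ∣ u - PowerSeries.C (PowerSeries.constantCoeff u) := by
    rw [PowerSeries.X_dvd_iff]
    simp
  obtain ⟨v, hv⟩ := h
  refine ⟨v, hv, ?_⟩
  have h1 := congrArg (PowerSeries.coeff 1) hv
  rw [PowerSeries.coeff_succ_X_mul] at h1
  rw [← PowerSeries.coeff_zero_eq_constantCoeff_apply, ← h1]
  simp

theorem core {k F Ω L : Type} [Field k] [CharZero k] [IsAlgClosed k] [Field F] [IsAlgClosed F]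
    [Algebra k F] [Field Ω] [IsAlgClosed Ω] [Algebra k Ω] [Algebra F Ω] [IsScalarTower k F Ω]
    [Field L] [Algebra k L]
    (hEXI : S_EXI) (hEXL : S_EXL) (hSPEC : S_SPEC) (hX0 : S_X0) (hF : S_FACTS) (hTR : S_TR)
    (hGLI : S_GLI)
    (G : MvPolynomial (Fin 4) k) (d : ℕ) (P : Six F) (hyp : Hyp G d P)
    (γ : Fin 2 → Ω) (hγ : AlgebraicIndependent F γ)
    (D : Derivation k Ω Ω) (hDp : D (algebraMap F Ω P.p) = γ 0) (hDq : D (algebraMap F Ω P.q) = γ 1)
    (E : Ω →ₐ[k] PowerSeries Ω)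
    (hE : ∀ f, PowerSeries.constantCoeff (E f) = f ∧ PowerSeries.coeff 1 (E f) = D f)
    (φ : PowerSeries Ω →ₐ[k] L) (hφ : Function.Injective φ)
    (ι θ : F →ₐ[k] L) (hι : ∀ f, ι f = φ (PowerSeries.C (algebraMap F Ω f)))
    (hθ : ∀ f, θ f = φ (E (algebraMap F Ω f))) :
    IP k (P.map ι) (P.map θ) ∧
    ∀ (A B : MvPolynomial (Fin 3) F) (α β : ℕ), A.IsHomogeneous α → B.IsHomogeneous β →
      A * B = Gz G P.p P.q P.r →
      α ≤ cc (P.map ι) (P.map θ) (A.map (ι : F →+* L)) (A.map (θ : F →+* L)) + 1 ∧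
      (aeval ![1, P.x, P.y] A ≠ 0 →
        cc (P.map ι) (P.map θ) (A.map (ι : F →+* L)) (A.map (θ : F →+* L)) = α) := by
  obtain ⟨hγ1, htr⟩ := trans_of_ai hγ
  -- independence
  have hIP : IP k (P.map ι) (P.map θ) := by
    refine ip_core hTR hyp ι θ ?_
    have h1 := hEXI F Ω γ hγ ![P.p, P.q] ![E (algebraMap F Ω P.p), E (algebraMap F Ω P.q)] (by
      intro i
      fin_cases i
      · exact (hE _).1
      · exact (hE _).1) (by
      intro i
      fin_cases i
      · exact (hE _).2.trans hDp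
      · exact (hE _).2.trans hDq)
    let _ : Algebra F L := ι.toRingHom.toAlgebra
    let φ' : PowerSeries Ω →ₐ[F] L := AlgHom.mk (φ : PowerSeries Ω →+* L) (fun f => by
      change φ (algebraMap F (PowerSeries Ω) f) = ι f
      rw [hι, PowerSeries.algebraMap_apply])
    have h2 := h1.map' (f := φ') hφ
    convert h2 using 1
    funext i
    fin_cases i
    · exact hθ _
    · exact hθ _
  refine ⟨hIP, ?_⟩
  -- the line
  obtain ⟨π, hπ, hπ0⟩ := split (E (algebraMap F Ω P.p))
  obtain ⟨κ, hκ, hκ0⟩ := split (E (algebraMap F Ω P.q))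
  obtain ⟨ρ, hρ, hρ0⟩ := split (E (algebraMap F Ω P.r))
  rw [(hE _).1] at hπ hκ hρ
  rw [(hE _).2, hDp] at hπ0
  rw [(hE _).2, hDq] at hκ0
  rw [(hE _).2] at hρ0
  have hκ1 : PowerSeries.constantCoeff κ ≠ 0 := by rw [hκ0]; exact hγ1
  have hκκ : κ * κ⁻¹ = 1 := PowerSeries.mul_inv_cancel κ hκ1
  have hφκ : φ κ * φ κ⁻¹ = 1 := by rw [← map_mul, hκκ, map_one]
  have hφX : φ PowerSeries.X ≠ 0 := fun h => PowerSeries.X_ne_zero (hφ (h.trans (map_zero φ).symm))
  have hφκ0 : φ κ ≠ 0 := left_ne_zero_of_mul_eq_one hφκ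
  have hφinv : φ κ⁻¹ = (φ κ)⁻¹ := eq_inv_of_mul_eq_one_right hφκ
  have dp : θ P.p - ι P.p = φ PowerSeries.X * φ π := by
    rw [hι, hθ, ← map_sub, hπ, map_mul]
  have dq : θ P.q - ι P.q = φ PowerSeries.X * φ κ := by
    rw [hι, hθ, ← map_sub, hκ, map_mul]
  have dr : θ P.r - ι P.r = φ PowerSeries.X * φ ρ := by
    rw [hι, hθ, ← map_sub, hρ, map_mul]
  have ea : (P.map ι).a (P.map θ) = φ (-ρ * κ⁻¹) := by
    change -(θ P.r - ι P.r) / (θ P.q - ι P.q) = _
    rw [dr, dq, map_mul, map_neg, hφinv]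
    field_simp
  have eb : (P.map ι).b (P.map θ) = φ (-π * κ⁻¹) := by
    change -(θ P.p - ι P.p) / (θ P.q - ι P.q) = _
    rw [dp, dq, map_mul, map_neg, hφinv]
    field_simp
  have cb : PowerSeries.constantCoeff (-π * κ⁻¹) = -γ 0 / γ 1 := by
    rw [map_mul, map_neg, PowerSeries.constantCoeff_inv, hπ0, hκ0, div_eq_mul_inv]
  have ca : PowerSeries.constantCoeff (-ρ * κ⁻¹) =
      algebraMap F Ω P.y - (-γ 0 / γ 1) * algebraMap F Ω P.x := by
    obtain ⟨-, hD2, -⟩ := (hF k F G d P hyp).2 Ω (IsScalarTower.toAlgHom k F Ω) D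
    change D (algebraMap F Ω P.r) + algebraMap F Ω P.x * D (algebraMap F Ω P.p) +
      algebraMap F Ω P.y * D (algebraMap F Ω P.q) = 0 at hD2
    rw [hDp, hDq] at hD2
    rw [map_mul, map_neg, PowerSeries.constantCoeff_inv, hρ0, hκ0,
      show D (algebraMap F Ω P.r) = -(algebraMap F Ω P.x * γ 0 + algebraMap F Ω P.y * γ 1) by
        linear_combination hD2]
    field_simp
    ring
  intro A B α β hA hB hAB
  have hrel := relPrime hX0 hGLI hyp ι θ hIP hAB
  obtain ⟨s1, s2, s3, s4, s5, s6⟩ := hSPEC k F Ω G d P hyp _ htr A B α β hA hB hAB hrel _ _ rfl rfl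
  -- names
  set a := -ρ * κ⁻¹ with ha
  set b := -π * κ⁻¹ with hb
  let Cι : F →+* PowerSeries Ω := (PowerSeries.C (R := Ω)).comp (algebraMap F Ω)
  let Eθ : F →+* PowerSeries Ω := (E : Ω →+* PowerSeries Ω).comp (algebraMap F Ω)
  have hιc : (φ : PowerSeries Ω →+* L).comp Cι = (ι : F →+* L) := by
    ext f; exact (hι f).symm
  have hθc : (φ : PowerSeries Ω →+* L).comp Eθ = (θ : F →+* L) := by
    ext f; exact (hθ f).symm
  have hCc : (PowerSeries.constantCoeff (R := Ω)).comp Cι = algebraMap F Ω := by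
    ext f
    change PowerSeries.constantCoeff (PowerSeries.C (algebraMap F Ω f)) = _
    simp
  have hEc : (PowerSeries.constantCoeff (R := Ω)).comp Eθ = algebraMap F Ω := by
    ext f
    exact (hE _).1
  have mι : ∀ Q : MvPolynomial (Fin 3) F, (res (Q.map Cι) a b).map (φ : PowerSeries Ω →+* L) =
      res (Q.map (ι : F →+* L)) ((P.map ι).a (P.map θ)) ((P.map ι).b (P.map θ)) := by
    intro Q
    rw [res_map, MvPolynomial.map_map, hιc, ea, eb]
    rfl
  have mθ : ∀ Q : MvPolynomial (Fin 3) F, (res (Q.map Eθ) a b).map (φ : PowerSeries Ω →+* L) =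
      res (Q.map (θ : F →+* L)) ((P.map ι).a (P.map θ)) ((P.map ι).b (P.map θ)) := by
    intro Q
    rw [res_map, MvPolynomial.map_map, hθc, ea, eb]
    rfl
  have cι : ∀ Q : MvPolynomial (Fin 3) F, (res (Q.map Cι) a b).map PowerSeries.constantCoeff =
      res (Q.map (algebraMap F Ω)) (algebraMap F Ω P.y - (-γ 0 / γ 1) * algebraMap F Ω P.x)
        (-γ 0 / γ 1) := by
    intro Q
    rw [res_map, MvPolynomial.map_map, hCc, ca, cb]
  have cθ : ∀ Q : MvPolynomial (Fin 3) F, (res (Q.map Eθ) a b).map PowerSeries.constantCoeff =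
      res (Q.map (algebraMap F Ω)) (algebraMap F Ω P.y - (-γ 0 / γ 1) * algebraMap F Ω P.x)
        (-γ 0 / γ 1) := by
    intro Q
    rw [res_map, MvPolynomial.map_map, hEc, ca, cb]
  have hdeg : ∀ (Q : MvPolynomial (Fin 3) F) (m : ℕ), Q.IsHomogeneous m →
      ∀ ψ : F →+* PowerSeries Ω, (res (Q.map ψ) a b).natDegree ≤ m := by
    intro Q m hQ ψ
    exact (natDegree_res_le _ _ _).trans ((hQ.map ψ).totalDegree_le)
  have hfg : res (A.map Cι) a b * res (B.map Cι) a b =
      res (A.map Eθ) a b * res (B.map Eθ) a b := by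
    apply Polynomial.map_injective (φ : PowerSeries Ω →+* L) hφ
    obtain ⟨g1, g2, -⟩ := hGLI k F G d P hyp L ι θ hIP
    rw [Polynomial.map_mul, Polynomial.map_mul, mι, mι, mθ, mθ, ← res_mul, ← res_mul, ← map_mul,
      ← map_mul, hAB, g1, g2]
  classical
  have key := hEXL Ω L (φ : PowerSeries Ω →+* L) hφ _ _ _ _ _ _ α β hfg (cι A) (cθ A) (cι B)
    (cθ B) s1 s2 s3 s4 (hdeg A α hA _) (hdeg A α hA _) (hdeg B β hB _) (hdeg B β hB _)
  have hcc : (EuclideanDomain.gcd ((res (A.map Cι) a b).map (φ : PowerSeries Ω →+* L))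
      ((res (A.map Eθ) a b).map (φ : PowerSeries Ω →+* L))).natDegree =
      cc (P.map ι) (P.map θ) (A.map (ι : F →+* L)) (A.map (θ : F →+* L)) := by
    unfold cc
    rw [mι, mθ]
  rw [hcc] at key
  refine ⟨?_, fun h => key.1 (s6 h)⟩
  rcases s5 with h | ⟨u, hu1, hu2, hu3⟩
  · rw [key.1 h]
    omega
  · exact key.2 _ u hu1 hu2 hu3

end EXaux

theorem t_EX (hTAY : S_TAY) (hEXI : S_EXI) (hEXL : S_EXL) (hSPEC : S_SPEC) (hX0 : S_X0)
    (hF : S_FACTS) (hTR : S_TR) (hGLI : S_GLI) : S_EX := by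
  intro k F _ _ _ _ _ _ G d P hyp
  obtain ⟨Ω, iΩ, iFΩ, γ, hc, hγ⟩ := EXaux.exists_big F
  let _ : Algebra k Ω := ((algebraMap F Ω).comp (algebraMap k F)).toAlgebra
  have ist : IsScalarTower k F Ω := IsScalarTower.of_algebraMap_eq' rfl
  have c0 : CharZero Ω := charZero_of_injective_algebraMap (algebraMap k Ω).injective
  have h1 : AlgebraicIndependent k (algebraMap F Ω ∘ ![P.p, P.q]) :=
    hyp.gp.dual.1.map' (f := IsScalarTower.toAlgHom k F Ω) (algebraMap F Ω).injective
  obtain ⟨D, hD⟩ := EXaux.exists_der2 h1 γ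
  obtain ⟨E, hE⟩ := hTAY k Ω D
  obtain ⟨L, iL, iA, φ, hφ⟩ : ∃ (L : Type) (_ : Field L) (_ : Algebra k L)
      (φ : PowerSeries Ω →ₐ[k] L), Function.Injective φ := by
    refine ⟨FractionRing (PowerSeries Ω), inferInstance, inferInstance,
      IsScalarTower.toAlgHom k (PowerSeries Ω) (FractionRing (PowerSeries Ω)), ?_⟩
    exact IsFractionRing.injective (PowerSeries Ω) (FractionRing (PowerSeries Ω))
  let κ : F →ₐ[k] PowerSeries Ω := AlgHom.mk ((PowerSeries.C (R := Ω)).comp (algebraMap F Ω))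
    (fun r => by
      rw [PowerSeries.algebraMap_apply, IsScalarTower.algebraMap_apply k F Ω]
      rfl)
  refine ⟨L, iL, iA, φ.comp κ, φ.comp (E.comp (IsScalarTower.toAlgHom k F Ω)), ?_⟩
  exact EXaux.core hEXI hEXL hSPEC hX0 hF hTR hGLI G d P hyp γ hγ D (hD 0) (hD 1) E hE φ hφ _ _
    (fun f => rfl) (fun f => rfl)

end Pool.Agent.H929.KC
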